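import Mathlib

/-!
# MP_88e59f_gt: a compact scattered hereditarily wD space which is not bisequential

The space is the ordinal `ω₁ + 1`.
-/

open Set Filter Topology Ordinal

namespace Pool.Agent.Results.MP_88e59f_gt.NegatedForm

universe u v

/-- Every nonempty subspace has an isolated point. -/
def Scattered (X : Type u) [TopologicalSpace X] : Prop :=
  ∀ A : Set X, A.Nonempty → ∃ x ∈ A, ∃ U : Set X, IsOpen U ∧ U ∩ A = {x}

/-- Property wD: for every infinite closed discrete set `D` there are an infinite `D' ⊆ D` and a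
discrete family of open sets `U d ∋ d`, `d ∈ D'` (every point has a neighbourhood which meets at
most one member of the family). -/
def WD (X : Type u) [TopologicalSpace X] : Prop :=
  ∀ D : Set X, D.Infinite → IsClosed D → (∀ d ∈ D, ∃ U : Set X, IsOpen U ∧ U ∩ D = {d}) →
    ∃ D' ⊆ D, D'.Infinite ∧ ∃ U : X → Set X, (∀ d ∈ D', IsOpen (U d) ∧ d ∈ U d) ∧
      ∀ x, ∃ V, IsOpen V ∧ x ∈ V ∧
        ∀ d ∈ D', ∀ e ∈ D', (U d ∩ V).Nonempty → (U e ∩ V).Nonempty → d = e

/-- Bisequential spaces. -/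
def Bisequential (X : Type u) [TopologicalSpace X] : Prop :=
  ∀ (x : X) (p : Ultrafilter X), (p : Filter X) ≤ 𝓝 x →
    ∃ A : ℕ → Set X, Antitone A ∧ (∀ n, A n ∈ p) ∧ ∀ V ∈ 𝓝 x, ∃ n, A n ⊆ V

section

variable {X : Type u} [TopologicalSpace X] {f : X → Ordinal.{v}}

theorem isOpen_Iic' (hf : Continuous f) (a : Ordinal.{v}) : IsOpen (f ⁻¹' Iic a) := by
  have : Iic a = Iio (a + 1) := by
    ext b
    rw [mem_Iic, mem_Iio, Order.lt_add_one_iff]
  rw [this]
  exact isOpen_Iio.preimage hf

theorem scattered_of_embedding (hf : IsEmbedding f) : Scattered X := by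
  intro A hA
  obtain ⟨_, ⟨x, hx, rfl⟩, hmin⟩ :=
    WellFounded.has_min (wellFounded_lt (α := Ordinal.{v})) (f '' A) (hA.image f)
  refine ⟨x, hx, f ⁻¹' Iic (f x), isOpen_Iic' hf.continuous _, ?_⟩
  ext y
  constructor
  · rintro ⟨hy, hyA⟩
    rcases lt_or_eq_of_le (show f y ≤ f x from hy) with h | h
    · exact absurd h (hmin _ ⟨y, hyA, rfl⟩)
    · exact hf.injective h
  · rintro rfl
    exact ⟨show f y ≤ f y from le_rfl, hx⟩

/-- An infinite set of ordinals contains a strictly increasing sequence. -/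
theorem exists_seq (hf : Function.Injective f) {D : Set X} (hD : D.Infinite) :
    ∃ d : ℕ → X, (∀ n, d n ∈ D) ∧ StrictMono fun n => f (d n) := by
  have : Infinite D := hD.to_subtype
  set g : ℕ → X := fun n => (Infinite.natEmbedding D n : X) with hg
  have hginj : Function.Injective fun n => f (g n) := fun m n h =>
    (Infinite.natEmbedding D).injective (Subtype.ext (hf h))
  obtain ⟨φ, hφ⟩ := exists_increasing_or_nonincreasing_subseq (· < ·) fun n => f (g n)
  rcases hφ with h | h
  · exact ⟨fun n => g (φ n), fun n => (Infinite.natEmbedding D (φ n)).2, fun m n hmn => h m n hmn⟩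
  · exfalso
    have hanti : ∀ m n, m < n → f (g (φ n)) < f (g (φ m)) := by
      intro m n hmn
      refine lt_of_le_of_ne (not_lt.1 (h m n hmn)) fun he => ?_
      exact absurd (φ.injective (hginj he)) hmn.ne'
    exact (RelEmbedding.wellFounded_iff_isEmpty.1 (wellFounded_lt (α := Ordinal.{v}))).false
      (RelEmbedding.natGT (fun n => f (g (φ n))) fun n => hanti n (n + 1) (Nat.lt_succ_self n))

theorem wd_of_embedding (hf : IsEmbedding f) : WD X := by
  intro D hD hDc hDd
  obtain ⟨d, hdD, hd⟩ := exists_seq hf.injective hD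
  have hbdd : BddAbove (range fun n => f (d n)) := Ordinal.bddAbove_range _
  set l := ⨆ n, f (d n) with hl
  have hle : ∀ n, f (d n) ≤ l := fun n => le_ciSup hbdd n
  have hlt : ∀ n, f (d n) < l := fun n => (hd (Nat.lt_succ_self n)).trans_le (hle (n + 1))
  have hex : ∀ a < l, ∃ n, a < f (d n) := fun a ha => exists_lt_of_lt_ciSup ha
  -- the limit of the sequence is not in the space
  have hnot : ∀ x, f x ≠ l := by
    intro x hx
    have hev : ∀ V : Set X, IsOpen V → x ∈ V → ∃ n, d n ∈ V := by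
      intro V hV hxV
      obtain ⟨W, hW, rfl⟩ := hf.isInducing.isOpen_iff.1 hV
      have h0 : (0 : Ordinal.{v}) < l := lt_of_le_of_lt (by simp) (hlt 0)
      have hxW : W ∈ 𝓝 l := hW.mem_nhds (by rw [← hx]; exact hxV)
      obtain ⟨a, ha, haW⟩ := exists_Ioc_subset_of_mem_nhds hxW ⟨0, h0⟩
      obtain ⟨n, hn⟩ := hex a ha
      exact ⟨n, haW ⟨hn, hle n⟩⟩
    have hxD : x ∈ D := by
      rw [← hDc.closure_eq, mem_closure_iff]
      intro V hV hxV
      obtain ⟨n, hn⟩ := hev V hV hxV
      exact ⟨d n, hn, hdD n⟩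
    obtain ⟨U, hU, hUD⟩ := hDd x hxD
    obtain ⟨n, hn⟩ := hev U hU (by
      have : x ∈ U ∩ D := by rw [hUD]; rfl
      exact this.1)
    have h1 : d n ∈ U ∩ D := ⟨hn, hdD n⟩
    rw [hUD] at h1
    have h2 : d n = x := h1
    have h3 := hlt n
    rw [h2, hx] at h3
    exact lt_irrefl _ h3
  refine ⟨range d, by rintro _ ⟨n, rfl⟩; exact hdD n,
    infinite_range_of_injective fun m n h => hd.injective (congrArg f h),
    fun y => {x | f x ≤ f y ∧ ∀ n, f (d n) < f y → f (d n) < f x}, ?_, ?_⟩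
  · have hopen : ∀ m, IsOpen {x | f x ≤ f (d m) ∧ ∀ n, f (d n) < f (d m) → f (d n) < f x} := by
      intro m
      have : {x | f x ≤ f (d m) ∧ ∀ n, f (d n) < f (d m) → f (d n) < f x} =
          f ⁻¹' Iic (f (d m)) ∩ ⋂ n ∈ Finset.range m, f ⁻¹' Ioi (f (d n)) := by
        ext x
        simp only [mem_setOf_eq, mem_inter_iff, mem_preimage, mem_Iic, mem_iInter, mem_Ioi,
          Finset.mem_range]
        constructor
        · rintro ⟨h1, h2⟩
          exact ⟨h1, fun n hn => h2 n (hd hn)⟩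
        · rintro ⟨h1, h2⟩
          exact ⟨h1, fun n hn => h2 n (hd.lt_iff_lt.1 hn)⟩
      rw [this]
      exact (isOpen_Iic' hf.continuous _).inter
        (isOpen_biInter_finset fun n _ => isOpen_Ioi.preimage hf.continuous)
    rintro _ ⟨m, rfl⟩
    exact ⟨hopen m, le_rfl, fun n hn => hn⟩
  · intro x
    rcases lt_trichotomy (f x) l with h | h | h
    · classical
      have hex' : ∃ m, f x ≤ f (d m) := by
        obtain ⟨n, hn⟩ := hex _ h
        exact ⟨n, hn.le⟩
      set m := Nat.find hex' with hm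
      have hxm : f x ≤ f (d m) := Nat.find_spec hex'
      have hmin : ∀ n < m, f (d n) < f x := fun n hn => not_le.1 (Nat.find_min hex' hn)
      refine ⟨f ⁻¹' Iic (f (d m)) ∩ ⋂ n ∈ Finset.range m, f ⁻¹' Ioi (f (d n)),
        (isOpen_Iic' hf.continuous _).inter
          (isOpen_biInter_finset fun n _ => isOpen_Ioi.preimage hf.continuous), ?_, ?_⟩
      · refine ⟨hxm, ?_⟩
        simp only [mem_iInter, Finset.mem_range]
        exact fun n hn => hmin n hn
      · have key : ∀ k, ({x | f x ≤ f (d k) ∧ ∀ n, f (d n) < f (d k) → f (d n) < f x} ∩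
            (f ⁻¹' Iic (f (d m)) ∩ ⋂ n ∈ Finset.range m, f ⁻¹' Ioi (f (d n)))).Nonempty →
            k = m := by
          rintro k ⟨z, ⟨h1, h2⟩, h3, h4⟩
          simp only [mem_iInter, Finset.mem_range] at h4
          rcases lt_trichotomy k m with hk | hk | hk
          · exact absurd h1 (not_le.2 (h4 k hk))
          · exact hk
          · exact absurd (show f z ≤ f (d m) from h3) (not_le.2 (h2 m (hd hk)))
        rintro _ ⟨a, rfl⟩ _ ⟨b, rfl⟩ ha hb
        rw [key a ha, key b hb]
    · exact absurd h (hnot x)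
    · refine ⟨f ⁻¹' Ioi l, isOpen_Ioi.preimage hf.continuous, h, ?_⟩
      rintro _ ⟨a, rfl⟩ _ ⟨b, rfl⟩ ⟨z, ⟨h1, _⟩, h2⟩ _
      exact absurd (h1.trans (hle a)) (not_le.2 h2)

theorem not_bisequential (hf : IsEmbedding f) (hr : range f = Iic ω₁) : ¬ Bisequential X := by
  intro H
  obtain ⟨x₀, hx₀⟩ : ω₁ ∈ range f := by
    rw [hr]
    show (ω₁ : Ordinal.{v}) ≤ ω₁
    exact le_rfl
  have hne : (𝓝[{x | f x < ω₁}] x₀).NeBot := by
    rw [← mem_closure_iff_nhdsWithin_neBot, mem_closure_iff]
    intro V hV hxV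
    obtain ⟨W, hW, rfl⟩ := hf.isInducing.isOpen_iff.1 hV
    have hxW : W ∈ 𝓝 (ω₁ : Ordinal.{v}) := hW.mem_nhds (by rw [← hx₀]; exact hxV)
    obtain ⟨a, ha, haW⟩ := exists_Ioc_subset_of_mem_nhds hxW ⟨0, Ordinal.omega_pos 1⟩
    have ha1 : a + 1 < ω₁ := (Cardinal.isSuccLimit_omega 1).add_one_lt ha
    obtain ⟨z, hz⟩ : a + 1 ∈ range f := by rw [hr]; exact ha1.le
    refine ⟨z, haW ?_, ?_⟩
    · rw [hz]
      exact ⟨Order.lt_add_one_iff.2 le_rfl, ha1.le⟩
    · show f z < ω₁
      rw [hz]; exact ha1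
  obtain ⟨A, -, hA, hconv⟩ := H x₀ (Ultrafilter.of (𝓝[{x | f x < ω₁}] x₀))
    ((Ultrafilter.of_le _).trans nhdsWithin_le_nhds)
  have hmem : {x | f x < ω₁} ∈ Ultrafilter.of (𝓝[{x | f x < ω₁}] x₀) :=
    Ultrafilter.of_le _ self_mem_nhdsWithin
  have hpt : ∀ n, ∃ a, a ∈ A n ∧ f a < ω₁ := fun n => by
    obtain ⟨a, ha⟩ := Ultrafilter.nonempty_of_mem (Filter.inter_mem (hA n) hmem)
    exact ⟨a, ha.1, ha.2⟩
  choose a haA haω using hpt
  have hsup : (⨆ n, f (a n)) < ω₁ := Ordinal.iSup_lt_omega_one haω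
  obtain ⟨n, hn⟩ := hconv (f ⁻¹' Ioi (⨆ n, f (a n)))
    ((isOpen_Ioi.preimage hf.continuous).mem_nhds (by
      show (⨆ n, f (a n)) < f x₀
      rw [hx₀]; exact hsup))
  exact absurd (le_ciSup (Ordinal.bddAbove_range fun n => f (a n)) n) (not_le.2 (hn (haA n)))

end

/-- The ordinal space `ω₁ + 1`, in the lowest universe. -/
abbrev Space : Type := Shrink.{0} (Iic (ω₁ : Ordinal.{0}))

/-- The inclusion of the space into the ordinals. -/
noncomputable def incl : Space → Ordinal.{0} := fun x => ((equivShrink _).symm x : Iic _).1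

/-- The order topology. -/
noncomputable instance instTop : TopologicalSpace Space := TopologicalSpace.induced incl inferInstance

theorem incl_injective : Function.Injective incl :=
  Subtype.val_injective.comp (equivShrink _).symm.injective

theorem incl_embedding : IsEmbedding incl := ⟨⟨rfl⟩, incl_injective⟩

theorem range_incl : range incl = Iic (ω₁ : Ordinal.{0}) := by
  ext a
  constructor
  · rintro ⟨x, rfl⟩
    exact ((equivShrink _).symm x : Iic (ω₁ : Ordinal.{0})).2
  · intro ha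
    refine ⟨equivShrink _ ⟨a, ha⟩, ?_⟩
    unfold incl
    rw [Equiv.symm_apply_apply]

/-- There is a compact Hausdorff scattered space all of whose subspaces satisfy wD and which is not
bisequential. -/
theorem result :
    ∃ (X : Type) (_ : TopologicalSpace X), CompactSpace X ∧ T2Space X ∧ Scattered X ∧
      (∀ S : Set X, WD S) ∧ ¬ Bisequential X := by
  refine ⟨Space, inferInstance, ?_, incl_embedding.t2Space, scattered_of_embedding incl_embedding,
    fun S => wd_of_embedding (incl_embedding.comp IsEmbedding.subtypeVal),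
    not_bisequential incl_embedding range_incl⟩
  rw [← isCompact_univ_iff, incl_embedding.isCompact_iff, image_univ, range_incl,
    ← Set.Icc_bot]
  exact isCompact_Icc

end Pool.Agent.Results.MP_88e59f_gt.NegatedForm
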